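import Mathlib

open Polynomial Finset

noncomputable section

namespace Pool.Agent.H80.TM

/-- The Thue-Morse value of `n`, as an element of `ZMod 2`. -/
def t (n : ℕ) : ZMod 2 := (((Nat.digits 2 n).sum : ℕ) : ZMod 2)

lemma t_zero : t 0 = 0 := by simp [t]

lemma t_two_mul_add (n b : ℕ) (hb : b < 2) : t (2 * n + b) = t n + b := by
  by_cases h : b ≠ 0 ∨ n ≠ 0
  · unfold t
    have : Nat.digits 2 (2 * n + b) = b :: Nat.digits 2 n := by
      rw [show 2 * n + b = b + 2 * n by ring]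
      exact Nat.digits_add 2 (by norm_num) b n hb h
    rw [this, List.sum_cons]
    push_cast
    ring
  · push Not at h
    obtain ⟨rfl, rfl⟩ := h
    simp [t]

lemma t_two_mul (n : ℕ) : t (2 * n) = t n := by
  have := t_two_mul_add n 0 (by norm_num)
  simpa using this

lemma t_two_mul_add_one (n : ℕ) : t (2 * n + 1) = t n + 1 := by
  have := t_two_mul_add n 1 (by norm_num)
  simpa using this

lemma t_pow_mul_add (m : ℕ) : ∀ (a b : ℕ), b < 2 ^ m → t (2 ^ m * a + b) = t a + t b := by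
  induction m with
  | zero =>
    intro a b hb
    have : b = 0 := by simpa using hb
    subst this
    simp [t_zero]
  | succ m ih =>
    intro a b hb
    have h1 : b = 2 * (b / 2) + b % 2 := by omega
    have h2 : b / 2 < 2 ^ m := by
      rw [pow_succ] at hb
      omega
    have h3 : b % 2 < 2 := Nat.mod_lt _ (by norm_num)
    have h4 : 2 ^ (m + 1) * a + b = 2 * (2 ^ m * a + b / 2) + b % 2 := by
      rw [pow_succ]
      nlinarith
    rw [h4, t_two_mul_add _ _ h3, ih a _ h2]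
    conv_rhs => rw [h1, t_two_mul_add _ _ h3]
    ring

lemma t_pow_mul (m a : ℕ) : t (2 ^ m * a) = t a := by
  have := t_pow_mul_add m a 0 (by positivity)
  simpa [t_zero] using this

lemma t_sum (m : ℕ) : ∀ (n : ℕ) (q : ℕ → ℕ), (∀ e < n, q e < 2 ^ m) →
    t (∑ e ∈ range n, q e * 2 ^ (m * e)) = ∑ e ∈ range n, t (q e) := by
  intro n
  induction n with
  | zero => intro q _; simp [t_zero]
  | succ n ih =>
    intro q hq
    rw [Finset.sum_range_succ', Finset.sum_range_succ']
    have h1 : ∑ e ∈ range n, q (e + 1) * 2 ^ (m * (e + 1)) + q 0 * 2 ^ (m * 0)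
        = 2 ^ m * (∑ e ∈ range n, q (e + 1) * 2 ^ (m * e)) + q 0 := by
      rw [Finset.mul_sum]
      congr 1
      · refine Finset.sum_congr rfl fun e _ => ?_
        rw [Nat.mul_add, pow_add]
        ring
      · simp
    rw [h1, t_pow_mul_add m _ _ (hq 0 (by omega)), ih (fun e => q (e + 1))
      (fun e he => hq (e + 1) (by omega))]

lemma taylor_sum (D : ℕ) (Q : ℕ[X]) (hQ : Q.natDegree ≤ D) (Y z : ℕ) :
    Q.eval (Y + z) = ∑ e ∈ range (D + 1), (hasseDeriv e Q).eval Y * z ^ e := by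
  have h1 : (taylor Y Q).eval z = Q.eval (z + Y) := taylor_eval Y Q z
  rw [add_comm Y z, ← h1, eval_eq_sum_range' (n := D + 1)]
  · refine Finset.sum_congr rfl fun e _ => ?_
    rw [taylor_coeff]
  · rw [natDegree_taylor]
    omega

/-- The shift identity: for `2 ^ m` larger than all relevant values. -/
lemma shift_eq (D : ℕ) (Q : ℕ[X]) (hQ : Q.natDegree ≤ D) (Y x m : ℕ)
    (hm : ∀ e ≤ D, ((x ^ e : ℕ) • hasseDeriv e Q).eval Y < 2 ^ m) :
    t (Q.eval (Y + 2 ^ m * x)) =
      ∑ e ∈ range (D + 1), t (((x ^ e : ℕ) • hasseDeriv e Q).eval Y) := by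
  rw [taylor_sum D Q hQ, ← t_sum m (D + 1) _ (fun e he => hm e (by omega))]
  congr 1
  refine Finset.sum_congr rfl fun e _ => ?_
  rw [eval_smul, mul_pow, ← pow_mul, smul_eq_mul]
  ring

/-- The shift operator on functions of polynomials. -/
def S (D x : ℕ) (Ψ : ℕ[X] → ℕ → ZMod 2) : ℕ[X] → ℕ → ZMod 2 :=
  fun Q Y => ∑ e ∈ range (D + 1), Ψ ((x ^ e : ℕ) • hasseDeriv e Q) Y

/-- The base function. -/
def base : ℕ[X] → ℕ → ZMod 2 := fun Q Y => t (Q.eval Y)

/-- Diagonal evaluation of symmetric sums in characteristic two. -/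
lemma sum_symm (g : ℕ → ℕ → ZMod 2) (hg : ∀ e f, g e f = g f e) (n : ℕ) :
    ∑ e ∈ range n, ∑ f ∈ range n, g e f = ∑ e ∈ range n, g e e := by
  induction n with
  | zero => simp
  | succ n ih =>
    rw [Finset.sum_range_succ, Finset.sum_range_succ (fun e => g e e)]
    have h1 : ∑ x ∈ range n, ∑ f ∈ range (n + 1), g x f
        = ∑ x ∈ range n, ∑ f ∈ range n, g x f + ∑ x ∈ range n, g x n := by
      rw [← Finset.sum_add_distrib]
      exact Finset.sum_congr rfl fun x _ => Finset.sum_range_succ _ _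
    rw [h1, ih, Finset.sum_range_succ (fun f => g n f)]
    have h2 : ∑ x ∈ range n, g n x = ∑ x ∈ range n, g x n :=
      Finset.sum_congr rfl fun x _ => hg n x
    rw [h2]
    have h3 : ∀ a : ZMod 2, a + a = 0 := by decide
    linear_combination h3 (∑ x ∈ range n, g x n)

/-- The multiplicities appearing in the iterated shift. -/
def M : ℕ → ℕ → ℕ
  | 0, _ => 1
  | s + 1, e => M s e * M s e * (2 ^ s * e + 2 ^ s * e).choose (2 ^ s * e)

lemma M_pos (s e : ℕ) : 0 < M s e := by
  induction s with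
  | zero => simp [M]
  | succ s ih =>
    rw [M]
    exact Nat.mul_pos (Nat.mul_pos ih ih) (Nat.choose_pos (by omega))

lemma M_zero (s : ℕ) : M s 0 = 1 := by
  induction s with
  | zero => simp [M]
  | succ s ih => simp [M, ih]

lemma hasse_hasse (k l : ℕ) (Q : ℕ[X]) :
    hasseDeriv k (hasseDeriv l Q) = (k + l).choose k • hasseDeriv (k + l) Q := by
  have := congrArg (fun F => F Q) (hasseDeriv_comp (R := ℕ) k l)
  simpa using this

lemma S_iter (D x : ℕ) (s : ℕ) : ∀ (Ψ : ℕ[X] → ℕ → ZMod 2) (Q : ℕ[X]) (Y : ℕ),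
    ((S D x)^[2 ^ s] Ψ) Q Y = ∑ e ∈ range (D + 1),
      Ψ ((M s e * x ^ (2 ^ s * e) : ℕ) • hasseDeriv (2 ^ s * e) Q) Y := by
  induction s with
  | zero =>
    intro Ψ Q Y
    simp [S, M]
  | succ s ih =>
    intro Ψ Q Y
    have h0 : 2 ^ (s + 1) = 2 ^ s + 2 ^ s := by rw [pow_succ]; ring
    rw [h0, Function.iterate_add_apply, ih]
    have h1 : ∀ e ∈ range (D + 1), ((S D x)^[2 ^ s] Ψ)
        ((M s e * x ^ (2 ^ s * e) : ℕ) • hasseDeriv (2 ^ s * e) Q) Y
        = ∑ f ∈ range (D + 1), Ψ ((M s f * M s e * x ^ (2 ^ s * f + 2 ^ s * e) *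
            (2 ^ s * f + 2 ^ s * e).choose (2 ^ s * f) : ℕ) •
              hasseDeriv (2 ^ s * f + 2 ^ s * e) Q) Y := by
      intro e _
      rw [ih]
      refine Finset.sum_congr rfl fun f _ => ?_
      rw [map_nsmul, hasse_hasse, smul_smul, smul_smul, pow_add]
      congr 2
      ring
    rw [Finset.sum_congr rfl h1, sum_symm]
    · refine Finset.sum_congr rfl fun e _ => ?_
      have e1 : (2 ^ s + 2 ^ s) * e = 2 ^ s * e + 2 ^ s * e := by ring
      rw [M, e1]
      congr 2
      ring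
    · intro e f
      have e1 : (2 ^ s * f + 2 ^ s * e).choose (2 ^ s * f)
            = (2 ^ s * e + 2 ^ s * f).choose (2 ^ s * e) := by
        rw [Nat.choose_symm_add, add_comm]
      rw [e1, add_comm (2 ^ s * f) (2 ^ s * e), mul_comm (M s f) (M s e)]

end Pool.Agent.H80.TM
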