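import Pool.Agent.H80.TM.Basic

open Polynomial Finset

noncomputable section

namespace Pool.Agent.H80.TM

lemma two_zmod (a : ZMod 2) : a + a = 0 := by revert a; decide

/-- Linear independence of `u ↦ t (c * u)` over distinct odd `c`. -/
lemma indep (O : Finset ℕ) (hodd : ∀ c ∈ O, c % 2 = 1) (hne : O.Nonempty) :
    ¬ ∀ u : ℕ, ∑ c ∈ O, t (c * u) = 0 := by
  intro h
  obtain ⟨c, hc, hmax⟩ := O.exists_max_image id hne
  simp only [id] at hmax
  have hcodd := hodd c hc
  have hcpos : 0 < c := by omega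
  -- the parameters
  set m : ℕ := 2 * c with hm
  have hpow : c * c < 2 ^ m := by
    have h1 : c < 2 ^ c := Nat.lt_two_pow_self
    calc c * c < 2 ^ c * 2 ^ c := Nat.mul_lt_mul'' h1 h1
      _ = 2 ^ m := by rw [hm, two_mul, pow_add]
  obtain ⟨b, hb1, hb2⟩ : ∃ b, 2 ^ m ≤ c * b ∧ c * b < 2 ^ m + c := by
    refine ⟨(2 ^ m + c - 1) / c, ?_, ?_⟩
    · have h1 := Nat.div_add_mod (2 ^ m + c - 1) c
      have h2 := Nat.mod_lt (2 ^ m + c - 1) hcpos
      omega
    · have h1 := Nat.div_add_mod (2 ^ m + c - 1) c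
      omega
  have hbc : c ≤ b := by
    by_contra hlt
    push Not at hlt
    have : c * b ≤ c * c := Nat.mul_le_mul_left _ hlt.le
    omega
  have hother : ∀ c' ∈ O.erase c, c' * b < 2 ^ m := by
    intro c' hc'
    rw [Finset.mem_erase] at hc'
    have h1 : c' ≤ c := hmax c' hc'.2
    have h2 : c' + 1 ≤ c := by omega
    have h3 : (c' + 1) * b ≤ c * b := Nat.mul_le_mul_right _ h2
    have h4 : (c' + 1) * b = c' * b + b := by ring
    omega
  obtain ⟨ρ, hρ⟩ : ∃ ρ, c * b = 2 ^ m + ρ := ⟨c * b - 2 ^ m, by omega⟩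
  have hρlt : ρ < 2 ^ m := by
    have : c ≤ c * c := Nat.le_mul_of_pos_left _ hcpos
    omega
  -- main identity
  have key : ∀ a : ℕ, t (c * a + 1) + t (c * a) + t ρ + ∑ c' ∈ O.erase c, t (c' * b) = 0 := by
    intro a
    have h1 := h (2 ^ m * a + b)
    have h2 := h a
    rw [← Finset.add_sum_erase _ _ hc] at h1 h2
    have h3 : t (c * (2 ^ m * a + b)) = t (c * a + 1) + t ρ := by
      rw [← t_pow_mul_add m _ _ hρlt]
      congr 1
      rw [Nat.mul_add, hρ]
      ring
    have h4 : ∑ c' ∈ O.erase c, t (c' * (2 ^ m * a + b))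
        = ∑ c' ∈ O.erase c, t (c' * a) + ∑ c' ∈ O.erase c, t (c' * b) := by
      rw [← Finset.sum_add_distrib]
      refine Finset.sum_congr rfl fun c' hc' => ?_
      rw [← t_pow_mul_add m _ _ (hother c' hc')]
      congr 1
      ring
    rw [h3, h4] at h1
    have h5 := two_zmod (∑ c' ∈ O.erase c, t (c' * a))
    linear_combination h1 + h2 - h5
  -- a = 0
  have k0 := key 0
  -- a with c * a ≡ 1 mod 4 : a = c
  have k1 := key c
  have hcc : ∃ q, c * c = 4 * q + 1 := by
    obtain ⟨w, hw⟩ : ∃ w, c = 2 * w + 1 := ⟨c / 2, by omega⟩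
    refine ⟨w * w + w, ?_⟩
    rw [hw]
    ring
  obtain ⟨q, hq⟩ := hcc
  have e0 : t (c * 0 + 1) + t (c * 0) = 1 := by
    have : t 1 = 1 := by
      have := t_two_mul_add_one 0
      simpa [t_zero] using this
    simp [t_zero, this]
  have e1 : t (c * c + 1) + t (c * c) = 0 := by
    rw [hq]
    have a1 : t (4 * q + 1 + 1) = t q + 1 := by
      rw [show 4 * q + 1 + 1 = 2 * (2 * q + 1) by ring, t_two_mul, t_two_mul_add_one]
    have a2 : t (4 * q + 1) = t q + 1 := by
      rw [show 4 * q + 1 = 2 * (2 * q) + 1 by ring, t_two_mul_add_one, t_two_mul]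
    rw [a1, a2]
    exact two_zmod _
  have : (1 : ZMod 2) = 0 := by
    linear_combination k0 - k1 - e0 + e1
  exact absurd this (by decide)

/-- bound for finitely many values -/
lemma exists_pow_bound {ι : Type*} (s : Finset ι) (f : ι → ℕ) : ∃ m, ∀ i ∈ s, f i < 2 ^ m := by
  refine ⟨∑ i ∈ s, f i, fun i hi => ?_⟩
  have h1 : f i ≤ ∑ i ∈ s, f i := Finset.single_le_sum (f := f) (fun _ _ => Nat.zero_le _) hi
  exact lt_of_le_of_lt h1 Nat.lt_two_pow_self

lemma coeff_hasse (k n : ℕ) (Q : ℕ[X]) :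
    (hasseDeriv k Q).coeff n = (n + k).choose k * Q.coeff (n + k) := by
  rw [hasseDeriv_coeff]
  simp

/-- Polarization. -/
lemma polarize (n : ℕ) : ∀ (J : Type) (s : Finset J) (Q : J → ℕ[X]),
    (∀ j ∈ s, (Q j).natDegree ≤ n + 1) → (∃ κ, ∀ Y, ∑ j ∈ s, t ((Q j).eval Y) = κ) →
    ∀ u : ℕ, ∑ j ∈ s, t ((n + 1).factorial * (Q j).coeff (n + 1) * u) = 0 := by
  induction n with
  | zero =>
    intro J s Q hdeg ⟨κ, hκ⟩ u
    obtain ⟨m, hm⟩ := exists_pow_bound (s ×ˢ range 2)
      (fun p => ((u ^ p.2 : ℕ) • hasseDeriv p.2 (Q p.1)).eval 0)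
    have h1 : ∀ j ∈ s, t ((Q j).eval (0 + 2 ^ m * u)) =
        ∑ e ∈ range (1 + 1), t (((u ^ e : ℕ) • hasseDeriv e (Q j)).eval 0) := by
      intro j hj
      refine shift_eq 1 (Q j) (by simpa using hdeg j hj) 0 u m fun e he => ?_
      exact hm (j, e) (by simp only [Finset.mem_product, Finset.mem_range]; exact ⟨hj, by omega⟩)
    have h2 := hκ (0 + 2 ^ m * u)
    have h3 := hκ 0
    rw [Finset.sum_congr rfl h1] at h2
    simp only [Finset.sum_range_succ, Finset.range_zero, Finset.sum_empty, pow_zero, one_smul,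
      pow_one, zero_add, Finset.sum_add_distrib, hasseDeriv_zero, LinearMap.id_coe, id_eq] at h2
    rw [h3] at h2
    have h4 : ∑ j ∈ s, t (((u : ℕ) • hasseDeriv 1 (Q j)).eval 0) = 0 := by
      have := h2
      rwa [add_eq_left] at this
    rw [← h4]
    refine Finset.sum_congr rfl fun j hj => ?_
    congr 1
    rw [eval_smul, ← coeff_zero_eq_eval_zero, coeff_hasse]
    simp
    ring
  | succ n ih =>
    intro J s Q hdeg ⟨κ, hκ⟩ u
    have h0 : ∀ Y, ∑ p ∈ s ×ˢ range (n + 2), t ((hasseDeriv (p.2 + 1) (Q p.1)).eval Y) = 0 := by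
      intro Y
      obtain ⟨m, hm⟩ := exists_pow_bound (s ×ˢ range (n + 3))
        (fun p => ((1 ^ p.2 : ℕ) • hasseDeriv p.2 (Q p.1)).eval Y)
      have h1 : ∀ j ∈ s, t ((Q j).eval (Y + 2 ^ m * 1)) =
          ∑ e ∈ range (n + 2 + 1), t (((1 ^ e : ℕ) • hasseDeriv e (Q j)).eval Y) := by
        intro j hj
        refine shift_eq (n + 2) (Q j) (by simpa using hdeg j hj) Y 1 m fun e he => ?_
        exact hm (j, e) (by
          simp only [Finset.mem_product, Finset.mem_range]; exact ⟨hj, by omega⟩)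
      have h2 := hκ (Y + 2 ^ m * 1)
      have h3 := hκ Y
      rw [Finset.sum_congr rfl h1] at h2
      simp only [one_pow, one_smul] at h2
      have h4 : ∀ j ∈ s, ∑ e ∈ range (n + 2 + 1), t ((hasseDeriv e (Q j)).eval Y)
          = ∑ e ∈ range (n + 2), t ((hasseDeriv (e + 1) (Q j)).eval Y) + t ((Q j).eval Y) := by
        intro j _
        rw [Finset.sum_range_succ']
        simp
      rw [Finset.sum_congr rfl h4, Finset.sum_add_distrib, h3, add_eq_right] at h2
      rw [Finset.sum_product]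
      exact h2
    have h5 := ih (J × ℕ) (s ×ˢ range (n + 2)) (fun p => hasseDeriv (p.2 + 1) (Q p.1)) (by
      intro p hp
      simp only [Finset.mem_product, Finset.mem_range] at hp
      have := natDegree_hasseDeriv_le (Q p.1) (p.2 + 1)
      have := hdeg p.1 hp.1
      omega) ⟨0, h0⟩ u
    rw [Finset.sum_product] at h5
    rw [← h5]
    refine Finset.sum_congr rfl fun j hj => ?_
    rw [Finset.sum_eq_single 0]
    · congr 2
      rw [coeff_hasse, Nat.factorial_succ (n + 1)]
      simp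
      ring
    · intro e _ he
      have : (hasseDeriv (e + 1) (Q j)).coeff (n + 1) = 0 := by
        rw [coeff_hasse, coeff_eq_zero_of_natDegree_lt, mul_zero]
        have := hdeg j hj
        omega
      simp [this, t_zero]
    · intro h
      simp at h

/-- The odd part. -/
def op (c : ℕ) : ℕ := ordCompl[2] c

lemma t_op (c u : ℕ) : t (c * u) = t (op c * u) := by
  have h : ordProj[2] c * ordCompl[2] c = c := Nat.ordProj_mul_ordCompl_eq_self c 2
  calc t (c * u) = t ((2 ^ c.factorization 2) * (op c * u)) := by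
        congr 1
        rw [← mul_assoc]
        congr 1
        exact h.symm
    _ = t (op c * u) := t_pow_mul _ _

lemma op_odd (c : ℕ) (hc : c ≠ 0) : op c % 2 = 1 := by
  have := Nat.not_dvd_ordCompl Nat.prime_two hc
  unfold op
  omega

/-- No nontrivial relation for multipliers with distinct odd parts. -/
lemma indep' {ι : Type} (s : Finset ι) (c : ι → ℕ) (hc : ∀ i ∈ s, c i ≠ 0)
    (hinj : ∀ i ∈ s, ∀ j ∈ s, op (c i) = op (c j) → i = j) (hne : s.Nonempty) :
    ¬ ∀ u : ℕ, ∑ i ∈ s, t (c i * u) = 0 := by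
  intro h
  refine indep (s.image fun i => op (c i)) ?_ (hne.image _) ?_
  · intro c' hc'
    rw [Finset.mem_image] at hc'
    obtain ⟨i, hi, rfl⟩ := hc'
    exact op_odd _ (hc i hi)
  · intro u
    rw [Finset.sum_image (fun i hi j hj hij => hinj i hi j hj hij), ← h u]
    exact Finset.sum_congr rfl fun i _ => (t_op _ _).symm

lemma op_mul (a c c' : ℕ) (ha : a ≠ 0)
    (h : op (a * c) = op (a * c')) : op c = op c' := by
  unfold op at *
  rw [Nat.ordCompl_mul, Nat.ordCompl_mul] at h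
  exact Nat.eq_of_mul_eq_mul_left (Nat.ordCompl_pos 2 ha) h

/-- Distinct numbers within a factor two have different odd parts. -/
lemma op_ne (c c' : ℕ) (h1 : c < c') (h2 : c' < 2 * c) : op c ≠ op c' := by
  intro h
  have e1 : 2 ^ c.factorization 2 * op c = c := Nat.ordProj_mul_ordCompl_eq_self c 2
  have e2 : 2 ^ c'.factorization 2 * op c' = c' := Nat.ordProj_mul_ordCompl_eq_self c' 2
  rw [← h] at e2
  set a := c.factorization 2
  set b := c'.factorization 2
  have hpos : 0 < op c := Nat.ordCompl_pos 2 (by omega)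
  have hab : a < b := by
    by_contra hle
    push Not at hle
    have : 2 ^ b ≤ 2 ^ a := Nat.pow_le_pow_right (by norm_num) hle
    have : 2 ^ b * op c ≤ 2 ^ a * op c := Nat.mul_le_mul_right _ this
    omega
  have h3 : 2 ^ (a + 1) ≤ 2 ^ b := Nat.pow_le_pow_right (by norm_num) hab
  have h4 : 2 ^ (a + 1) * op c ≤ 2 ^ b * op c := Nat.mul_le_mul_right _ h3
  rw [pow_succ] at h4
  have h5 : 2 ^ a * 2 * op c = 2 * (2 ^ a * op c) := by ring
  omega

end Pool.Agent.H80.TM
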