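import Pool.Agent.H80.TM.Quant

open Polynomial Finset

noncomputable section

namespace Pool.Agent.H80.TM

lemma pos_eventually (Q : ℤ[X]) (n : ℕ) (hdeg : Q.natDegree ≤ n) (hc : 0 < Q.coeff n) :
    ∃ y0 : ℕ, ∀ y : ℕ, y0 ≤ y → 0 < Q.eval (y : ℤ) := by
  have hQ : Q.natDegree = n := by
    refine le_antisymm hdeg (le_natDegree_of_ne_zero hc.ne')
  by_cases hn : n = 0
  · refine ⟨0, fun y _ => ?_⟩
    rw [eq_C_of_natDegree_le_zero (p := Q) (by omega), eval_C, ← hn]
    exact hc
  · set R : ℝ[X] := Q.map (Int.castRingHom ℝ) with hR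
    have hRdeg : R.natDegree = n := by
      rw [hR, natDegree_map_eq_of_injective (RingHom.injective_int _), hQ]
    have hlead : 0 < R.leadingCoeff := by
      rw [leadingCoeff, hRdeg, hR, coeff_map]
      simpa using hc
    have ht := R.tendsto_atTop_of_leadingCoeff_nonneg (by
      rw [← natDegree_pos_iff_degree_pos, hRdeg]
      omega) hlead.le
    have h2 := (ht.comp (tendsto_natCast_atTop_atTop (R := ℝ))).eventually_gt_atTop 0
    obtain ⟨y0, hy0⟩ := Filter.eventually_atTop.1 h2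
    refine ⟨y0, fun y hy => ?_⟩
    have h3 := hy0 y hy
    simp only [Function.comp_apply] at h3
    have h4 : R.eval (y : ℝ) = ((Q.eval (y : ℤ) : ℤ) : ℝ) := by
      rw [hR]
      simp
    rw [h4] at h3
    exact_mod_cast h3

lemma coeff_hasse_int (k n : ℕ) (Q : ℤ[X]) :
    (hasseDeriv k Q).coeff n = (n + k).choose k * Q.coeff (n + k) := by
  rw [hasseDeriv_coeff]

lemma lead_pos (P : ℤ[X]) (hd : 2 ≤ P.natDegree) (hP : ∀ n : ℕ, 0 ≤ P.eval (n : ℤ)) :
    0 < P.coeff P.natDegree := by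
  have hP0 : P ≠ 0 := by
    rintro rfl
    simp at hd
  have h1 : P.leadingCoeff ≠ 0 := leadingCoeff_ne_zero.2 hP0
  rcases lt_or_gt_of_ne h1 with h | h
  · exfalso
    obtain ⟨y0, hy0⟩ := pos_eventually (-P) P.natDegree (by simp) (by
      rw [coeff_neg]
      have : P.coeff P.natDegree < 0 := h
      omega)
    have h2 := hy0 y0 le_rfl
    have h3 := hP y0
    rw [eval_neg] at h2
    omega
  · exact h

/-- Eventually all Hasse derivatives are positive. -/
lemma hasse_pos (P : ℤ[X]) (hpos : 0 < P.coeff P.natDegree) :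
    ∃ y0 : ℕ, ∀ y : ℕ, y0 ≤ y → ∀ e ≤ P.natDegree, 0 < (hasseDeriv e P).eval (y : ℤ) := by
  have h1 : ∀ e : ℕ, ∃ y0 : ℕ, e ≤ P.natDegree → ∀ y : ℕ, y0 ≤ y →
      0 < (hasseDeriv e P).eval (y : ℤ) := by
    intro e
    by_cases he : e ≤ P.natDegree
    · obtain ⟨y0, hy0⟩ := pos_eventually (hasseDeriv e P) (P.natDegree - e)
        (natDegree_hasseDeriv_le P e) (by
          rw [coeff_hasse_int, Nat.sub_add_cancel he]
          have : 0 < (P.natDegree.choose e : ℤ) := by exact_mod_cast Nat.choose_pos he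
          positivity)
      exact ⟨y0, fun _ => hy0⟩
    · exact ⟨0, fun h => absurd h he⟩
  choose f hf using h1
  refine ⟨∑ e ∈ range (P.natDegree + 1), f e, fun y hy e he => hf e he y ?_⟩
  refine le_trans ?_ hy
  exact Finset.single_le_sum (f := f) (fun _ _ => Nat.zero_le _)
    (Finset.mem_range.2 (by omega))

lemma hasse_top_int (n : ℕ) (Q : ℤ[X]) (hQ : Q.natDegree ≤ n) :
    hasseDeriv n Q = C (Q.coeff n) := by
  have h1 : (hasseDeriv n Q).natDegree ≤ 0 := by
    have := natDegree_hasseDeriv_le Q n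
    omega
  rw [eq_C_of_natDegree_le_zero h1, coeff_hasse_int]
  simp

lemma ratio (Q : ℤ[X]) (n : ℕ) (hn : 1 ≤ n) (hdeg : Q.natDegree ≤ n) (hc : 0 < Q.coeff n) (k : ℕ) :
    ∃ y0 : ℕ, ∀ y : ℕ, y0 ≤ y → ∀ i j : ℕ, i < j → j < k →
      Q.eval ((y + i : ℕ) : ℤ) < Q.eval ((y + j : ℕ) : ℤ) ∧
      Q.eval ((y + j : ℕ) : ℤ) < 2 * Q.eval ((y + i : ℕ) : ℤ) := by
  obtain ⟨n', rfl⟩ : ∃ n', n = n' + 1 := ⟨n - 1, by omega⟩
  have htop : ∀ a : ℤ, (taylor a Q).coeff (n' + 1) = Q.coeff (n' + 1) := by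
    intro a
    rw [taylor_coeff, hasse_top_int _ _ hdeg, eval_C]
  have htop' : (taylor 1 Q).coeff n' = Q.coeff n' + (n' + 1) * Q.coeff (n' + 1) := by
    rw [taylor_coeff]
    have h1 : (hasseDeriv n' Q).natDegree ≤ 1 := by
      have := natDegree_hasseDeriv_le Q n'
      omega
    rw [eval_eq_sum_range' (n := 2) (by omega)]
    simp only [Finset.sum_range_succ, Finset.range_zero, Finset.sum_empty, one_pow, mul_one,
      zero_add, coeff_hasse_int, Nat.choose_self]
    have h2 : (1 + n').choose n' = n' + 1 := by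
      rw [add_comm, Nat.choose_succ_self_right]
    rw [h2]
    push_cast
    rw [add_comm 1 n']
    ring
  have hdt : ∀ a : ℤ, (taylor a Q).natDegree ≤ n' + 1 := by
    intro a
    rw [natDegree_taylor]
    exact hdeg
  -- increments
  obtain ⟨y1, hy1⟩ := pos_eventually (taylor 1 Q - Q) n' (by
    refine natDegree_le_iff_coeff_eq_zero.2 fun m hm => ?_
    rw [coeff_sub]
    rcases Nat.lt_or_ge (n' + 1) m with h | h
    · rw [coeff_eq_zero_of_natDegree_lt (lt_of_le_of_lt (hdt 1) h),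
        coeff_eq_zero_of_natDegree_lt (lt_of_le_of_lt hdeg h), sub_zero]
    · have : m = n' + 1 := by omega
      subst this
      rw [htop, sub_self]) (by
    rw [coeff_sub, htop']
    have : 0 < ((n' : ℤ) + 1) * Q.coeff (n' + 1) := by positivity
    linarith)
  have hinc : ∀ y : ℕ, y1 ≤ y → Q.eval (y : ℤ) < Q.eval ((y + 1 : ℕ) : ℤ) := by
    intro y hy
    have := hy1 y hy
    rw [eval_sub, taylor_eval] at this
    push_cast
    linarith
  have hinc' : ∀ y : ℕ, y1 ≤ y → ∀ i : ℕ, Q.eval (y : ℤ) < Q.eval ((y + (i + 1) : ℕ) : ℤ) := by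
    intro y hy i
    induction i with
    | zero => exact hinc y hy
    | succ i ih => exact ih.trans (by
        have := hinc (y + (i + 1)) (by omega)
        rw [show y + (i + 1 + 1) = y + (i + 1) + 1 by ring]
        exact this)
  -- ratio
  have h2 : ∀ j : ℕ, ∃ y0 : ℕ, ∀ y : ℕ, y0 ≤ y →
      Q.eval ((y + j : ℕ) : ℤ) < 2 * Q.eval (y : ℤ) := by
    intro j
    obtain ⟨y2, hy2⟩ := pos_eventually (C 2 * Q - taylor (j : ℤ) Q) (n' + 1) (by
      refine (natDegree_sub_le _ _).trans (max_le ?_ (hdt _))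
      exact (natDegree_C_mul_le _ _).trans hdeg) (by
      rw [coeff_sub, coeff_C_mul, htop]
      linarith)
    refine ⟨y2, fun y hy => ?_⟩
    have := hy2 y hy
    rw [eval_sub, eval_mul, eval_C, taylor_eval] at this
    push_cast
    linarith
  choose f hf using h2
  refine ⟨y1 + ∑ j ∈ range k, f j, fun y hy i j hij hj => ⟨?_, ?_⟩⟩
  · have := hinc' (y + i) (by omega) (j - i - 1)
    rw [show y + i + (j - i - 1 + 1) = y + j by omega] at this
    exact this
  · have h3 : f (j - i) ≤ ∑ j ∈ range k, f j :=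
      Finset.single_le_sum (f := f) (fun _ _ => Nat.zero_le _) (Finset.mem_range.2 (by omega))
    have := hf (j - i) (y + i) (by omega)
    rw [show y + i + (j - i) = y + j by omega] at this
    exact this

/-- Passing to natural coefficients after a translation. -/
lemma to_nat (P : ℤ[X]) (y : ℕ) (hy : ∀ e ≤ P.natDegree, 0 < (hasseDeriv e P).eval (y : ℤ)) :
    ∃ R : ℕ[X], R.natDegree = P.natDegree ∧ R.map (Nat.castRingHom ℤ) = taylor (y : ℤ) P := by
  classical
  set R : ℕ[X] := ∑ e ∈ range (P.natDegree + 1),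
    C ((hasseDeriv e P).eval (y : ℤ)).toNat * X ^ e with hR
  have hcoeff : ∀ n, R.coeff n = if n ≤ P.natDegree then
      ((hasseDeriv n P).eval (y : ℤ)).toNat else 0 := by
    intro n
    rw [hR, finsetSum_coeff]
    simp only [coeff_C_mul, coeff_X_pow, mul_ite, mul_one, mul_zero]
    rw [Finset.sum_ite_eq]
    by_cases h : n ≤ P.natDegree
    · rw [if_pos h, if_pos (Finset.mem_range.2 (by omega))]
    · rw [if_neg h, if_neg (by rw [Finset.mem_range]; omega)]
  refine ⟨R, ?_, ?_⟩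
  · refine le_antisymm ?_ ?_
    · refine natDegree_le_iff_coeff_eq_zero.2 fun m hm => ?_
      rw [hcoeff, if_neg (by omega)]
    · refine le_natDegree_of_ne_zero ?_
      rw [hcoeff, if_pos le_rfl]
      have := hy P.natDegree le_rfl
      omega
  · ext n
    rw [coeff_map, hcoeff, taylor_coeff]
    by_cases h : n ≤ P.natDegree
    · rw [if_pos h]
      have := hy n h
      simp only [eq_natCast]
      exact Int.toNat_of_nonneg this.le
    · rw [if_neg h, hasseDeriv_eq_zero_of_lt_natDegree _ _ (by omega)]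
      simp

lemma eval_hasse_of_map (P : ℤ[X]) (R : ℕ[X]) (y : ℕ)
    (hR : R.map (Nat.castRingHom ℤ) = taylor (y : ℤ) P) (r i : ℕ) :
    (((hasseDeriv r R).eval i : ℕ) : ℤ) = (hasseDeriv r P).eval ((y + i : ℕ) : ℤ) := by
  have h1 : (taylor (i : ℤ) (R.map (Nat.castRingHom ℤ))).coeff r =
      (hasseDeriv r P).eval ((y + i : ℕ) : ℤ) := by
    rw [hR, taylor_taylor, taylor_coeff]
    congr 1
    push_cast
    ring
  rw [← h1]
  have h2 : (taylor (i : ℤ) (R.map (Nat.castRingHom ℤ))) =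
      (taylor i R).map (Nat.castRingHom ℤ) := by
    rw [map_taylor]
    simp
  rw [h2, coeff_map, taylor_coeff]
  simp

lemma t_mod (n : ℕ) (a : Fin 2) (h : t n = ((a : ℕ) : ZMod 2)) :
    (Nat.digits 2 n).sum % 2 = a := by
  unfold t at h
  have := (ZMod.natCast_eq_natCast_iff' _ _ _).1 h
  rw [this]
  exact Nat.mod_eq_of_lt a.2

/-- Main qualitative statement. -/
theorem words_int (P : ℤ[X]) (hd : 2 ≤ P.natDegree) (hP : ∀ n : ℕ, 0 ≤ P.eval (n : ℤ))
    (k : ℕ) (w : ℕ → ZMod 2) :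
    ∃ (n : ℕ) (R : ℕ[X]), R.natDegree = P.natDegree ∧
      R.map (Nat.castRingHom ℤ) = taylor (n : ℤ) P ∧ ∀ i < k, t (R.eval i) = w i := by
  have hpos := lead_pos P hd hP
  obtain ⟨y0, hy0⟩ := hasse_pos P hpos
  set s := Nat.log 2 (P.natDegree - 1) with hs
  have hs1 : 2 ^ s < P.natDegree := by
    have := Nat.pow_log_le_self 2 (x := P.natDegree - 1) (by omega)
    rw [← hs] at this
    omega
  have hs2 : P.natDegree ≤ 2 * 2 ^ s := by
    have := Nat.lt_pow_succ_log_self (b := 2) (by norm_num) (P.natDegree - 1)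
    rw [← hs, Nat.succ_eq_add_one, pow_succ] at this
    omega
  obtain ⟨y1, hy1⟩ := ratio (hasseDeriv (2 ^ s) P) (P.natDegree - 2 ^ s) (by omega)
    (natDegree_hasseDeriv_le P _) (by
      rw [coeff_hasse_int, Nat.sub_add_cancel hs1.le]
      have : 0 < (P.natDegree.choose (2 ^ s) : ℤ) := by
        exact_mod_cast Nat.choose_pos hs1.le
      positivity) k
  set y := y0 + y1 with hy
  obtain ⟨R, hRdeg, hRmap⟩ := to_nat P y (hy0 y (by omega))
  have hcast := eval_hasse_of_map P R y hRmap (2 ^ s)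
  have hordered : ∀ i j : ℕ, i < j → j < k →
      op ((hasseDeriv (2 ^ s) R).eval i) ≠ op ((hasseDeriv (2 ^ s) R).eval j) := by
    intro i j hij hj
    obtain ⟨h1, h2⟩ := hy1 y (by omega) i j hij hj
    rw [← hcast, ← hcast] at h1 h2
    exact op_ne _ _ (by exact_mod_cast h1) (by exact_mod_cast h2)
  obtain ⟨n, hn⟩ := words_nat R s k (by omega) (by omega) (by omega) (by
    intro i _ h0
    have h1 := hcast i
    rw [h0] at h1
    have h2 := hy0 (y + i) (by omega) (2 ^ s) hs1.le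
    rw [← h1] at h2
    simp at h2) (by
    intro i hi j hj hij
    by_contra hne
    rcases Nat.lt_or_gt_of_ne hne with h | h
    · exact hordered i j h hj hij
    · exact hordered j i h hi hij.symm) w
  obtain ⟨R', hR'deg, hR'map⟩ := to_nat P (y + n) (hy0 (y + n) (by omega))
  refine ⟨y + n, R', hR'deg, hR'map, fun i hi => ?_⟩
  rw [← hn i hi]
  congr 1
  have h1 := eval_hasse_of_map P R y hRmap 0 (n + i)
  have h2 := eval_hasse_of_map P R' (y + n) hR'map 0 i
  rw [show y + n + i = y + (n + i) by ring, ← h1] at h2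
  simp only [hasseDeriv_zero, LinearMap.id_coe, id_eq] at h2
  exact_mod_cast h2

end Pool.Agent.H80.TM
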