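import Pool.Agent.H80.TM.Words

open Polynomial Finset

noncomputable section

namespace Pool.Agent.H80.TM

/-- exponent recursion -/
def G (D : ℕ) : ℕ → ℕ → ℕ
  | 0, _ => 0
  | j + 1, l => l + D + (G D j (l + D) + 1) * D + G D j (l + D)

lemma eval_mono_nat (Q : ℕ[X]) {a b : ℕ} (h : a ≤ b) : Q.eval a ≤ Q.eval b := by
  rw [eval_eq_sum_range, eval_eq_sum_range]
  exact Finset.sum_le_sum fun i _ => Nat.mul_le_mul_left _ (Nat.pow_le_pow_left h i)

lemma eval_le_nat (D : ℕ) (Q : ℕ[X]) (hQ : Q.natDegree ≤ D) {z : ℕ} (hz : 1 ≤ z) :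
    Q.eval z ≤ Q.eval 1 * z ^ D := by
  rw [eval_eq_sum_range, eval_eq_sum_range, Finset.sum_mul]
  refine Finset.sum_le_sum fun i hi => ?_
  rw [one_pow, mul_one]
  refine Nat.mul_le_mul_left _ (Nat.pow_le_pow_right hz ?_)
  have := Finset.mem_range.1 hi
  omega

lemma quant_step (D : ℕ) : ∀ (j l : ℕ) (F : Finset ℕ[X]), (∀ Q ∈ F, Q.natDegree ≤ D) →
    ∀ K : ℕ, ∃ C : ℕ, ∀ X : ℕ, 1 ≤ X → ∃ σ : ℕ, (1 ≤ j → 1 ≤ σ) ∧ σ ≤ C * X ^ G D j l ∧
      ∀ x ≤ X, ∀ c ≤ X ^ l, ∀ Q ∈ F, ∀ Y < K,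
        t ((c • Q).eval (Y + σ * x)) = ((S D x)^[j] base) (c • Q) Y := by
  classical
  intro j
  induction j with
  | zero =>
    intro l F _ K
    refine ⟨0, fun X _ => ⟨0, by simp, by simp, fun x _ c _ Q _ Y _ => ?_⟩⟩
    simp [base]
  | succ j ih =>
    intro l F hF K
    set F' : Finset ℕ[X] := F.biUnion fun Q =>
      (range (D + 1)).image fun e => hasseDeriv e Q with hF'
    have hF'mem : ∀ Q ∈ F, ∀ e ≤ D, hasseDeriv e Q ∈ F' := by
      intro Q hQ e he
      rw [hF', Finset.mem_biUnion]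
      exact ⟨Q, hQ, Finset.mem_image.2 ⟨e, Finset.mem_range.2 (by omega), rfl⟩⟩
    have hF'deg : ∀ Q ∈ F', Q.natDegree ≤ D := by
      intro Q' hQ'
      rw [hF', Finset.mem_biUnion] at hQ'
      obtain ⟨Q, hQ, hQ'⟩ := hQ'
      rw [Finset.mem_image] at hQ'
      obtain ⟨e, _, rfl⟩ := hQ'
      have := natDegree_hasseDeriv_le Q e
      have := hF Q hQ
      omega
    obtain ⟨C', hC'⟩ := ih (l + D) F' hF'deg K
    set B : ℕ := ∑ Q ∈ F', Q.eval 1 with hB
    set g : ℕ := G D j (l + D) with hg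
    refine ⟨C' + 2 * (B * (K + C' + 1) ^ D + 1), fun X hX => ?_⟩
    obtain ⟨σ', _, hσ'le, hσ'⟩ := hC' X hX
    set V : ℕ := B * (K + C' + 1) ^ D * X ^ (l + D + (g + 1) * D) with hV
    set m : ℕ := Nat.log 2 V + 1 with hm
    have hVlt : V < 2 ^ m := Nat.lt_pow_succ_log_self (by norm_num) V
    have hmle : 2 ^ m ≤ 2 * (V + 1) := by
      rw [hm, pow_succ]
      by_cases hV0 : V = 0
      · rw [hV0]; simp
      · have := Nat.pow_log_le_self 2 hV0
        omega
    have hXpow : ∀ n : ℕ, 1 ≤ X ^ n := fun n => Nat.one_le_pow _ _ hX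
    refine ⟨σ' + 2 ^ m, fun _ => ?_, ?_, ?_⟩
    · have : 0 < 2 ^ m := by positivity
      omega
    · have h1 : C' * X ^ g ≤ C' * X ^ G D (j + 1) l := by
        refine Nat.mul_le_mul_left _ (Nat.pow_le_pow_right hX ?_)
        rw [G, ← hg]
        omega
      have h2 : V + 1 ≤ (B * (K + C' + 1) ^ D + 1) * X ^ G D (j + 1) l := by
        rw [add_mul, one_mul]
        refine Nat.add_le_add ?_ (hXpow _)
        refine Nat.mul_le_mul_left _ (Nat.pow_le_pow_right hX ?_)
        rw [G, ← hg]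
        omega
      calc σ' + 2 ^ m ≤ C' * X ^ g + 2 * (V + 1) := Nat.add_le_add hσ'le hmle
        _ ≤ C' * X ^ G D (j + 1) l + 2 * ((B * (K + C' + 1) ^ D + 1) * X ^ G D (j + 1) l) :=
            Nat.add_le_add h1 (Nat.mul_le_mul_left _ h2)
        _ = (C' + 2 * (B * (K + C' + 1) ^ D + 1)) * X ^ G D (j + 1) l := by ring
    · intro x hx c hc Q hQ Y hY
      rw [Function.iterate_succ_apply', show Y + (σ' + 2 ^ m) * x = (Y + σ' * x) + 2 ^ m * x by ring,
        shift_eq D (c • Q) ((natDegree_smul_le c Q).trans (hF Q hQ)) (Y + σ' * x) x m]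
      · unfold S
        refine Finset.sum_congr rfl fun e he => ?_
        have he' : e ≤ D := by
          have := Finset.mem_range.1 he
          omega
        rw [map_nsmul, smul_smul]
        refine hσ' x hx (x ^ e * c) ?_ _ (hF'mem Q hQ e he') Y hY
        calc x ^ e * c ≤ X ^ D * X ^ l := by
              refine Nat.mul_le_mul ?_ hc
              exact (Nat.pow_le_pow_left hx e).trans (Nat.pow_le_pow_right hX he')
          _ = X ^ (l + D) := by rw [← pow_add]; congr 1; ring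
      · intro e he
        refine lt_of_le_of_lt ?_ hVlt
        rw [map_nsmul, smul_smul, eval_smul, smul_eq_mul]
        have h1 : (hasseDeriv e Q).eval (Y + σ' * x) ≤
            B * ((K + C' + 1) * X ^ (g + 1)) ^ D := by
          have h2 : Y + σ' * x ≤ (K + C' + 1) * X ^ (g + 1) := by
            have h3 : σ' * x ≤ C' * X ^ (g + 1) := by
              calc σ' * x ≤ (C' * X ^ g) * X := Nat.mul_le_mul hσ'le hx
                _ = C' * X ^ (g + 1) := by rw [pow_succ]; ring
            have h4 : Y ≤ K * X ^ (g + 1) := by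
              calc Y ≤ K * 1 := by omega
                _ ≤ K * X ^ (g + 1) := Nat.mul_le_mul_left _ (hXpow _)
            calc Y + σ' * x ≤ K * X ^ (g + 1) + C' * X ^ (g + 1) := Nat.add_le_add h4 h3
              _ ≤ (K + C' + 1) * X ^ (g + 1) := by
                rw [← add_mul]
                exact Nat.mul_le_mul_right _ (by omega)
          calc (hasseDeriv e Q).eval (Y + σ' * x)
              ≤ (hasseDeriv e Q).eval ((K + C' + 1) * X ^ (g + 1)) := eval_mono_nat _ h2
            _ ≤ (hasseDeriv e Q).eval 1 * ((K + C' + 1) * X ^ (g + 1)) ^ D :=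
                eval_le_nat D _ (hF'deg _ (hF'mem Q hQ e he)) (by
                  have := hXpow (g + 1)
                  nlinarith)
            _ ≤ B * ((K + C' + 1) * X ^ (g + 1)) ^ D := by
                refine Nat.mul_le_mul_right _ ?_
                rw [hB]
                exact Finset.single_le_sum (f := fun Q : ℕ[X] => Q.eval 1)
                  (fun _ _ => Nat.zero_le _) (hF'mem Q hQ e he)
        have h5 : x ^ e * c ≤ X ^ (l + D) := by
          calc x ^ e * c ≤ X ^ D * X ^ l := by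
                refine Nat.mul_le_mul ?_ hc
                exact (Nat.pow_le_pow_left hx e).trans (Nat.pow_le_pow_right hX he)
            _ = X ^ (l + D) := by rw [← pow_add]; congr 1; ring
        calc x ^ e * c * (hasseDeriv e Q).eval (Y + σ' * x)
            ≤ X ^ (l + D) * (B * ((K + C' + 1) * X ^ (g + 1)) ^ D) := Nat.mul_le_mul h5 h1
          _ = V := by
              rw [hV, mul_pow, ← pow_mul, pow_add X (l + D) ((g + 1) * D)]
              ring

/-- The copies number: a power of two larger than `D`. -/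
def Rr (D : ℕ) : ℕ := Nat.log 2 D + 1

lemma lt_Rr (D : ℕ) : D < 2 ^ Rr D := Nat.lt_pow_succ_log_self (by norm_num) D

lemma many_returns (P : ℕ[X]) (D : ℕ) (hP : P.natDegree ≤ D) (K : ℕ) :
    ∃ C : ℕ, ∀ X : ℕ, 1 ≤ X → ∃ σ : ℕ, 1 ≤ σ ∧ σ ≤ C * X ^ G D (2 ^ Rr D) 0 ∧
      ∀ x ≤ X, ∀ Y < K, t (P.eval (Y + σ * x)) = t (P.eval Y) := by
  obtain ⟨C, hC⟩ := quant_step D (2 ^ Rr D) 0 {P} (by simpa using hP) K
  refine ⟨C, fun X hX => ?_⟩
  obtain ⟨σ, h1, h2, h3⟩ := hC X hX
  refine ⟨σ, h1 (Nat.one_le_two_pow), h2, fun x hx Y hY => ?_⟩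
  have h4 := h3 x hx 1 (by simp) P (by simp) Y hY
  rw [one_smul, S_iter, Finset.sum_range_succ', Finset.sum_eq_zero, M_zero] at h4
  · rw [h4]
    simp [base]
  · intro e _
    rw [hasseDeriv_eq_zero_of_lt_natDegree]
    · simp [base, t_zero]
    · have := lt_Rr D
      nlinarith

end Pool.Agent.H80.TM
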