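import Pool.Agent.H80.TM.Indep

open Polynomial Finset

noncomputable section

namespace Pool.Agent.H80.TM

/-- `Ψ` is reachable: its values are Thue-Morse values at a common far away place. -/
def Rch (D : ℕ) (Ψ : ℕ[X] → ℕ → ZMod 2) : Prop :=
  ∀ F : Finset ℕ[X], (∀ Q ∈ F, Q.natDegree ≤ D) → ∀ K : ℕ,
    ∃ n, ∀ Q ∈ F, ∀ Y < K, t (Q.eval (n + Y)) = Ψ Q Y

lemma rch_base (D : ℕ) : Rch D base := by
  intro F _ K
  exact ⟨0, fun Q _ Y _ => by simp [base]⟩

lemma natDegree_nsmul_hasse (D c e : ℕ) (Q : ℕ[X]) (hQ : Q.natDegree ≤ D) :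
    ((c : ℕ) • hasseDeriv e Q).natDegree ≤ D - e := by
  have h1 := natDegree_smul_le c (hasseDeriv e Q)
  have h2 := natDegree_hasseDeriv_le Q e
  omega

lemma Rch.shift {D : ℕ} {Ψ : ℕ[X] → ℕ → ZMod 2} (h : Rch D Ψ) (x : ℕ) : Rch D (S D x Ψ) := by
  classical
  intro F hF K
  set F' : Finset ℕ[X] := F.biUnion fun Q =>
    (range (D + 1)).image fun e => ((x ^ e : ℕ) • hasseDeriv e Q) with hF'
  obtain ⟨n, hn⟩ := h F' (by
    intro Q' hQ'
    rw [hF', Finset.mem_biUnion] at hQ'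
    obtain ⟨Q, hQ, hQ'⟩ := hQ'
    rw [Finset.mem_image] at hQ'
    obtain ⟨e, _, rfl⟩ := hQ'
    have := natDegree_nsmul_hasse D (x ^ e) e Q (hF Q hQ)
    omega) K
  obtain ⟨m, hm⟩ := exists_pow_bound (F ×ˢ (range (D + 1) ×ˢ range (n + K)))
      (fun p => ((x ^ p.2.1 : ℕ) • hasseDeriv p.2.1 p.1).eval p.2.2)
  refine ⟨n + 2 ^ m * x, fun Q hQ Y hY => ?_⟩
  rw [show n + 2 ^ m * x + Y = (n + Y) + 2 ^ m * x by ring,
    shift_eq D Q (hF Q hQ) (n + Y) x m (fun e he => hm (Q, e, n + Y) (by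
      simp only [Finset.mem_product, Finset.mem_range]
      exact ⟨hQ, by omega, by omega⟩))]
  unfold S
  refine Finset.sum_congr rfl fun e he => ?_
  refine hn _ ?_ Y hY
  rw [hF', Finset.mem_biUnion]
  exact ⟨Q, hQ, Finset.mem_image.2 ⟨e, he, rfl⟩⟩

lemma Rch.iter {D : ℕ} {Ψ : ℕ[X] → ℕ → ZMod 2} (h : Rch D Ψ) (x n : ℕ) :
    Rch D ((S D x)^[n] Ψ) := by
  induction n with
  | zero => exact h
  | succ n ih =>
    rw [Function.iterate_succ_apply']
    exact ih.shift x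

lemma hasse_top (n : ℕ) (Q : ℕ[X]) (hQ : Q.natDegree ≤ n) :
    hasseDeriv n Q = C (Q.coeff n) := by
  have h1 : (hasseDeriv n Q).natDegree ≤ 0 := by
    have := natDegree_hasseDeriv_le Q n
    omega
  rw [eq_C_of_natDegree_le_zero h1, coeff_hasse]
  simp

lemma T_eval (D s x : ℕ) (hD2 : 2 ≤ D) (hD : D ≤ 2 * 2 ^ s) (Ψ : ℕ[X] → ℕ → ZMod 2)
    (hΨ : ∀ c Y, Ψ (C c) Y = t c) (Q : ℕ[X]) (hQ : Q.natDegree ≤ D) (Y : ℕ) :
    ((S D x)^[2 ^ s] Ψ) Q Y = Ψ Q Y + Ψ ((M s 1 * x ^ 2 ^ s : ℕ) • hasseDeriv (2 ^ s) Q) Y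
      + t (M s 2 * x ^ (2 ^ s * 2) * Q.coeff (2 ^ s * 2)) := by
  have hΨ0 : ∀ Y, Ψ 0 Y = 0 := by
    intro Y
    have := hΨ 0 Y
    simpa [t_zero] using this
  have hs : 0 < 2 ^ s := by positivity
  rw [S_iter]
  obtain ⟨D', rfl⟩ : ∃ D', D = D' + 2 := ⟨D - 2, by omega⟩
  rw [Finset.sum_range_succ', Finset.sum_range_succ', Finset.sum_range_succ']
  have h1 : ∀ e ∈ range D', Ψ ((M s (e + 1 + 1 + 1) * x ^ (2 ^ s * (e + 1 + 1 + 1)) : ℕ) •
      hasseDeriv (2 ^ s * (e + 1 + 1 + 1)) Q) Y = 0 := by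
    intro e _
    rw [hasseDeriv_eq_zero_of_lt_natDegree, smul_zero, hΨ0]
    nlinarith
  rw [Finset.sum_eq_zero h1]
  have h2 : (hasseDeriv (2 ^ s * (0 + 1 + 1)) Q) = C (Q.coeff (2 ^ s * 2)) := by
    rw [show 2 ^ s * (0 + 1 + 1) = 2 ^ s * 2 by ring]
    exact hasse_top _ _ (by omega)
  rw [h2]
  have h3 : (M s (0 + 1 + 1) * x ^ (2 ^ s * (0 + 1 + 1)) : ℕ) • (C (Q.coeff (2 ^ s * 2)) : ℕ[X])
      = C (M s 2 * x ^ (2 ^ s * 2) * Q.coeff (2 ^ s * 2)) := by
    rw [smul_C, smul_eq_mul]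
  rw [h3, hΨ, M_zero]
  simp
  ring

/-- The iterated gadgets. -/
def TT (D s : ℕ) : List ℕ → ℕ[X] → ℕ → ZMod 2
  | [] => base
  | x :: xs => (S D x)^[2 ^ s] (TT D s xs)

lemma rch_TT (D s : ℕ) (xs : List ℕ) : Rch D (TT D s xs) := by
  induction xs with
  | nil => exact rch_base D
  | cons x xs ih => exact ih.iter x _

lemma TT_const (D s : ℕ) (hD2 : 2 ≤ D) (hD : D ≤ 2 * 2 ^ s) (xs : List ℕ) :
    ∀ c Y, TT D s xs (C c) Y = t c := by
  induction xs with
  | nil => intro c Y; simp [TT, base]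
  | cons x xs ih =>
    intro c Y
    rw [TT, T_eval D s x hD2 hD _ ih _ (by simp)]
    have hs : 0 < 2 ^ s := by positivity
    rw [ih]
    have h1 : hasseDeriv (2 ^ s) (C c : ℕ[X]) = C 0 := by
      rw [hasseDeriv_C _ _ hs, map_zero]
    have h2 : (C c : ℕ[X]).coeff (2 ^ s * 2) = 0 := by
      rw [coeff_C, if_neg (by omega)]
    rw [h1, h2, smul_C, smul_zero, ih]
    simp [t_zero]

lemma TT_small (D s : ℕ) (hD2 : 2 ≤ D) (hD : D ≤ 2 * 2 ^ s) (xs : List ℕ) :
    ∀ Q : ℕ[X], Q.natDegree ≤ D - 2 ^ s → ∃ ε : ZMod 2, (D < 2 * 2 ^ s → ε = 0) ∧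
      ∀ Y, TT D s xs Q Y = t (Q.eval Y) + ε := by
  have hs : 0 < 2 ^ s := by positivity
  induction xs with
  | nil => intro Q _; exact ⟨0, fun _ => rfl, fun Y => by simp [TT, base]⟩
  | cons x xs ih =>
    intro Q hQ
    obtain ⟨ε, hε1, hε2⟩ := ih Q hQ
    refine ⟨ε + t (M s 1 * x ^ 2 ^ s * Q.coeff (2 ^ s)), ?_, ?_⟩
    · intro hlt
      rw [hε1 hlt, coeff_eq_zero_of_natDegree_lt (by omega)]
      simp [t_zero]
    · intro Y
      rw [TT, T_eval D s x hD2 hD _ (TT_const D s hD2 hD xs) _ (by omega), hε2,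
        hasse_top (2 ^ s) Q (by omega), coeff_eq_zero_of_natDegree_lt (n := 2 ^ s * 2) (by omega),
        smul_C, TT_const D s hD2 hD xs]
      simp [t_zero]
      ring

lemma TT_main (D s : ℕ) (hD2 : 2 ≤ D) (hD : D ≤ 2 * 2 ^ s) (xs : List ℕ) :
    ∀ Q : ℕ[X], Q.natDegree ≤ D → ∃ ε : ZMod 2, (D < 2 * 2 ^ s → ε = 0) ∧
      ∀ Y, TT D s xs Q Y = t (Q.eval Y) +
        (xs.map fun x => t (M s 1 * x ^ 2 ^ s * (hasseDeriv (2 ^ s) Q).eval Y)).sum + ε := by
  have hs : 0 < 2 ^ s := by positivity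
  induction xs with
  | nil => intro Q _; exact ⟨0, fun _ => rfl, fun Y => by simp [TT, base]⟩
  | cons x xs ih =>
    intro Q hQ
    obtain ⟨ε, hε1, hε2⟩ := ih Q hQ
    obtain ⟨ε', hε1', hε2'⟩ := TT_small D s hD2 hD xs
      ((M s 1 * x ^ 2 ^ s : ℕ) • hasseDeriv (2 ^ s) Q)
      (natDegree_nsmul_hasse D _ _ Q hQ)
    refine ⟨ε + ε' + t (M s 2 * x ^ (2 ^ s * 2) * Q.coeff (2 ^ s * 2)), ?_, ?_⟩
    · intro hlt
      rw [hε1 hlt, hε1' hlt, coeff_eq_zero_of_natDegree_lt (by omega)]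
      simp [t_zero]
    · intro Y
      rw [TT, T_eval D s x hD2 hD _ (TT_const D s hD2 hD xs) _ hQ, hε2, hε2', List.map_cons,
        List.sum_cons, eval_smul, smul_eq_mul]
      ring

/-- Spanning. -/
lemma span_all (k s A : ℕ) (hA : A ≠ 0) (c : ℕ → ℕ) (hc : ∀ i < k, c i ≠ 0)
    (hinj : ∀ i < k, ∀ j < k, op (c i) = op (c j) → i = j) (v : Fin k → ZMod 2) :
    ∃ xs : List ℕ, ∀ i : Fin k, (xs.map fun x => t (A * x ^ 2 ^ s * c i)).sum = v i := by
  classical
  set h : ℕ → Fin k → ZMod 2 := fun x i => t (A * x ^ 2 ^ s * c i) with hh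
  set W : Submodule (ZMod 2) (Fin k → ZMod 2) := Submodule.span (ZMod 2) (Set.range h) with hW
  have htop : W = ⊤ := by
    by_contra hne
    obtain ⟨f, hf, hker⟩ := Submodule.exists_le_ker_of_lt_top W (lt_top_iff_ne_top.2 hne)
    have hfx : ∀ x, f (h x) = 0 := fun x =>
      hker (Submodule.subset_span ⟨x, rfl⟩)
    set a : Fin k → ZMod 2 := fun i => f (Pi.single i 1) with ha
    have hfv : ∀ v : Fin k → ZMod 2, f v = ∑ i, v i * a i := by
      intro v
      conv_lhs => rw [LinearMap.pi_apply_eq_sum_univ f v]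
      refine Finset.sum_congr rfl fun i _ => ?_
      rw [smul_eq_mul, ha]
      congr 2
      funext j
      rw [Pi.single_apply]
      by_cases hij : i = j
      · simp [hij]
      · rw [if_neg hij, if_neg (Ne.symm hij)]
    set I : Finset (Fin k) := Finset.univ.filter fun i => a i ≠ 0 with hI
    have ha1 : ∀ i ∈ I, a i = 1 := by
      intro i hi
      have : a i ≠ 0 := (Finset.mem_filter.1 hi).2
      generalize a i = z at this
      revert this
      revert z
      decide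
    have hsum : ∀ x, ∑ i ∈ I, t (A * x ^ 2 ^ s * c i) = 0 := by
      intro x
      have h1 := hfx x
      rw [hfv] at h1
      rw [← h1, ← Finset.sum_filter_add_sum_filter_not Finset.univ (fun i => a i ≠ 0)]
      have h2 : ∑ i ∈ Finset.univ.filter (fun i => ¬ a i ≠ 0), h x i * a i = 0 := by
        refine Finset.sum_eq_zero fun i hi => ?_
        have : a i = 0 := by simpa using (Finset.mem_filter.1 hi).2
        rw [this, mul_zero]
      rw [h2, add_zero]
      refine Finset.sum_congr rfl fun i hi => ?_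
      rw [ha1 i hi, mul_one]
    have hIne : I.Nonempty := by
      by_contra hemp
      rw [Finset.not_nonempty_iff_eq_empty] at hemp
      apply hf
      ext v
      simp only [LinearMap.coe_comp, LinearMap.coe_single, Function.comp_apply,
        LinearMap.zero_apply]
      have : v ∉ I := by rw [hemp]; simp
      rw [hI, Finset.mem_filter] at this
      simpa using this
    -- polarization
    obtain ⟨n, hn⟩ : ∃ n, 2 ^ s = n + 1 := ⟨2 ^ s - 1, by
      have : 0 < 2 ^ s := by positivity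
      omega⟩
    have hpol := polarize n (Fin k) I (fun i => C (A * c i) * X ^ (n + 1)) (by
      intro i _
      exact natDegree_C_mul_X_pow_le _ _) ⟨0, fun Y => by
        rw [← hsum Y]
        refine Finset.sum_congr rfl fun i _ => ?_
        congr 1
        rw [eval_mul, eval_C, eval_pow, eval_X, hn]
        ring⟩
    refine indep' I (fun i => ((n + 1).factorial * A) * c i) ?_ ?_ hIne ?_
    · intro i _
      exact mul_ne_zero (mul_ne_zero (Nat.factorial_ne_zero _) hA) (hc i i.2)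
    · intro i _ j _ hij
      have := op_mul _ _ _ (mul_ne_zero (Nat.factorial_ne_zero _) hA) hij
      exact Fin.ext (hinj i i.2 j j.2 this)
    · intro u
      rw [← hpol u]
      refine Finset.sum_congr rfl fun i _ => ?_
      congr 1
      rw [coeff_C_mul, coeff_X_pow, if_pos rfl]
      ring
  have hv : v ∈ W := by rw [htop]; trivial
  clear htop
  rw [hW] at hv
  induction hv using Submodule.span_induction with
  | mem v hv =>
    obtain ⟨x, rfl⟩ := hv
    exact ⟨[x], fun i => by simp [hh]⟩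
  | zero => exact ⟨[], fun i => by simp⟩
  | add v v' _ _ ih ih' =>
    obtain ⟨xs, hxs⟩ := ih
    obtain ⟨xs', hxs'⟩ := ih'
    exact ⟨xs ++ xs', fun i => by
      rw [List.map_append, List.sum_append, hxs, hxs', Pi.add_apply]⟩
  | smul z v _ ih =>
    obtain ⟨xs, hxs⟩ := ih
    have hz : z = 0 ∨ z = 1 := by revert z; decide
    rcases hz with rfl | rfl
    · exact ⟨[], fun i => by simp⟩
    · exact ⟨xs, fun i => by rw [hxs]; simp⟩

/-- A single monomial takes the value one. -/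
lemma exists_one (n A : ℕ) (hA : A ≠ 0) : ∃ x, t (A * x ^ (n + 1)) = 1 := by
  by_contra hcon
  push Not at hcon
  have h0 : ∀ x, t (A * x ^ (n + 1)) = 0 := by
    intro x
    have := hcon x
    generalize t (A * x ^ (n + 1)) = z at this
    revert z
    decide
  have hpol := polarize n Unit {()} (fun _ => C A * X ^ (n + 1)) (by
      intro i _
      exact natDegree_C_mul_X_pow_le _ _) ⟨0, fun Y => by
        simp only [Finset.sum_singleton, eval_mul, eval_C, eval_pow, eval_X]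
        exact h0 Y⟩
  refine indep' ({()} : Finset Unit) (fun _ => (n + 1).factorial * A) ?_ ?_ (by simp) ?_
  · intro _ _
    exact mul_ne_zero (Nat.factorial_ne_zero _) hA
  · intro i _ j _ _
    rfl
  · intro u
    rw [← hpol u]
    simp

/-- All words occur, for polynomials with natural coefficients. -/
theorem words_nat (P : ℕ[X]) (s k : ℕ) (hd2 : 2 ≤ P.natDegree)
    (hs1 : 2 ^ s < P.natDegree) (hs2 : P.natDegree ≤ 2 * 2 ^ s)
    (hc : ∀ i < k, (hasseDeriv (2 ^ s) P).eval i ≠ 0)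
    (hinj : ∀ i < k, ∀ j < k, op ((hasseDeriv (2 ^ s) P).eval i) =
      op ((hasseDeriv (2 ^ s) P).eval j) → i = j) (w : ℕ → ZMod 2) :
    ∃ n, ∀ i < k, t (P.eval (n + i)) = w i := by
  set D := P.natDegree with hD
  obtain ⟨xs, hxs⟩ := span_all k s (M s 1) (M_pos s 1).ne'
    (fun i => (hasseDeriv (2 ^ s) P).eval i) hc hinj (fun i => w i + t (P.eval i))
  obtain ⟨ε, hε, hT⟩ := TT_main D s hd2 hs2 xs P le_rfl
  have hval : ∀ i < k, TT D s xs P i = w i + ε := by
    intro i hi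
    rw [hT, hxs ⟨i, hi⟩]
    have := two_zmod (t (P.eval i))
    linear_combination this
  by_cases h0 : ε = 0
  · obtain ⟨n, hn⟩ := rch_TT D s xs {P} (by simp [hD]) k
    refine ⟨n, fun i hi => ?_⟩
    rw [hn P (by simp) i hi, hval i hi, h0, add_zero]
  · have hε1 : ε = 1 := by
      revert h0
      generalize ε = z
      revert z
      decide
    have hDeq : D = 2 * 2 ^ s := by
      by_contra hne
      exact h0 (hε (by omega))
    -- flip
    have hlead : P.coeff (2 ^ (s + 1)) ≠ 0 := by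
      have : 2 ^ (s + 1) = P.natDegree := by rw [pow_succ, ← hD, hDeq]; ring
      rw [this]
      have hP : P ≠ 0 := by
        intro h
        rw [h, natDegree_zero] at hD
        omega
      exact leadingCoeff_ne_zero.2 hP
    obtain ⟨n0, hn0⟩ : ∃ n0, 2 ^ (s + 1) = n0 + 1 := ⟨2 ^ (s + 1) - 1, by
      have : 0 < 2 ^ (s + 1) := by positivity
      omega⟩
    obtain ⟨x, hx⟩ := exists_one n0 (M (s + 1) 1 * P.coeff (2 ^ (s + 1)))
      (mul_ne_zero (M_pos _ _).ne' hlead)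
    rw [← hn0] at hx
    have hflip : ∀ Y, ((S D x)^[2 ^ (s + 1)] (TT D s xs)) P Y = TT D s xs P Y + 1 := by
      intro Y
      have hconst := TT_const D s hd2 hs2 xs
      rw [T_eval D (s + 1) x hd2 (by rw [pow_succ]; omega) _ hconst P le_rfl,
        hasse_top (2 ^ (s + 1)) P (by rw [pow_succ]; omega), smul_C, hconst,
        coeff_eq_zero_of_natDegree_lt (n := 2 ^ (s + 1) * 2) (by rw [pow_succ]; omega)]
      simp only [mul_zero, t_zero, add_zero, smul_eq_mul]
      rw [← hx]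
      congr 2
      ring
    obtain ⟨n, hn⟩ := (rch_TT D s xs).iter x (2 ^ (s + 1)) {P} (by simp [hD]) k
    refine ⟨n, fun i hi => ?_⟩
    rw [hn P (by simp) i hi, hflip, hval i hi, hε1]
    have : (1 : ZMod 2) + 1 = 0 := by decide
    linear_combination this

end Pool.Agent.H80.TM
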